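import Pool.Agent.J4.H83.PH.Prog
import Pool.Agent.J4.H83.PH.Extra

/-!
# The restricted density polynomial Hales-Jewett conjecture for families of bounded
Vapnik-Chervonenkis dimension at diagonal blocks

Let `I_1, …, I_b` be disjoint sets of `l` coordinates, and let `F` be a family of subsets of `[N]^d`.
Divide the cells into the block `I_k^d` and the other cells. The family `F` has dimension less than
`v` at the block if no `v` contents `x_1, …, x_v` of the block are shattered: it is not the case that
for every `T ⊆ {1, …, v}` there are contents `y` of the other cells with `x_i ∪ y ∈ F` exactly for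
`i ∈ T` (here the contents of the cells outside all the blocks may even be fixed).

**Theorem.** For all `d`, `v` and `δ > 0` there are `l`, `b` and `η > 0` such that all families `F` of
density at least `δ` which have dimension less than `v` at `b` disjoint blocks, and all families
which contain all of such a family but a proportion `η` of all sets, are good.

The bound is for the dimension only; the contents of the other cells may be processed in an
arbitrary way. Boolean combinations of boundedly many such families are again of this kind. Examples: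

* families given by the signs of boundedly many functions `f` of bounded flattening rank over `ℝ`,
  `f A = ∑_{i ≤ r} a_i (A ∩ I_k^d) b_i (A \ I_k^d)` (unbounded error communication complexity);
* families given by the signs of linear forms in the last vector of a program of real `w × w`
  matrices which reads every cell a bounded number of times, in any order (cut-point families of
  probabilistic automata and programs of bounded width);
* thresholds `g ≥ 1` on `F`, `g ≤ -1` off `F`, of combinations of arbitrary products of functions of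
  single cells with values in `[-1, 1]`, with coefficients of total size at most `M`; the products
  may be replaced by products of a function of the block and a function of the other cells;
* `F = {A : ∑_{c ∈ A} g_c ∈ W}`, where `g_c` are elements of an arbitrary abelian group and `W` is a
  subset of the group whose translates have bounded dimension (intervals of the circle, semialgebraic
  subsets of `ℝ^k`, …).

The starting files have the families which are supports of functions of bounded flattening rank over
a field, with exponentially small density (`MatrixPrograms`), and thresholds of sums of parities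
(`ParityThresholds`). In our theorem the density cannot be exponentially small: the sets with
exactly `m` cells on the diagonal form a family of dimension `1` at all blocks which is not good, of
density at least `1 / (N + 1)` for some `m`.

Proof. Fix contents of the cells outside the blocks and a block such that the contents `u` of this
block all occur in a proportion of at least `δ / 4` of the sets in `F`; if there were no such block,
then the least frequent contents of the blocks would occur less often than is possible in a family of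
density `δ`. To `u` corresponds the set of the contents `y` of the other blocks with `u ∪ y ∈ F`. By
the packing lemma for set systems of bounded dimension (Dudley, Haussler; in the starting library)
these sets fall into a number of classes, bounded in terms of `v` and `δ` but not of `l`, such that
the members of one class nearly coincide. The polynomial Hales-Jewett theorem of Bergelson and
Leibman (in the starting library) gives `u` and `u ∪ γ^d` in the same class, hence many `y` for which
`u ∪ y` and `u ∪ γ^d ∪ y` are in `F`.
-/

set_option autoImplicit false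

namespace Pool.Agent.Results.MP_90b327_co.BoundedVCDimension

open Finset Pool.Agent.Y613.PJ Pool.Agent.R756.WP

/-- Some contents `x 0, …, x (v - 1)` of the block `B` of cells are shattered by the contents of the
other cells in `D`, for some fixed contents `ρ` of the cells outside `D`: for every set `T` of
indices there is `y`, equal to `ρ` outside `D`, such that `x i` in the block and `y` outside the
block give a member of `F` if and only if `i ∈ T`. -/
def Shattered {d N : ℕ} (F : Finset (Finset (Fin d → Fin N))) (B D : Finset (Fin d → Fin N))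
    (v : ℕ) : Prop :=
  ∃ (x : Fin v → Finset (Fin d → Fin N)) (ρ : Finset (Fin d → Fin N)), ∀ T : Finset (Fin v),
    ∃ y : Finset (Fin d → Fin N), y \ D = ρ \ D ∧ ∀ i, ((x i ∩ B) ∪ (y \ B) ∈ F ↔ i ∈ T)

/-- `g A` is a combination, with coefficients of total size at most `M`, of products of a function
of `A ∩ B` and a function of `A \ B` with values in `[-1, 1]`. -/
def FlatWeight {d N : ℕ} (M : ℝ) (B : Finset (Fin d → Fin N))
    (g : Finset (Fin d → Fin N) → ℝ) : Prop :=
  ∃ (n : ℕ) (lam : Fin n → ℝ) (a b : Fin n → Finset (Fin d → Fin N) → ℝ), ∑ i, |lam i| ≤ M ∧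
    (∀ i X, |a i X| ≤ 1) ∧ (∀ i X, |b i X| ≤ 1) ∧
      ∀ A, g A = ∑ i, lam i * (a i (A ∩ B) * b i (A \ B))

/-- `S` contains all of `F` but at most `η 2^(N^d)` sets, and `F` has at least `δ 2^(N^d)` elements. -/
def Dense {d N : ℕ} (δ η : ℝ) (F S : Finset (Finset (Fin d → Fin N))) : Prop :=
  δ * 2 ^ (N ^ d) ≤ (#F : ℝ) ∧ (#(F \ S) : ℝ) ≤ η * 2 ^ (N ^ d)

/-- `I 0, …, I (b - 1)` are disjoint sets with `l` elements. -/
def Blocks {N b : ℕ} (l : ℕ) (I : Fin b → Finset (Fin N)) : Prop :=
  (∀ k, #(I k) = l) ∧ ∀ j k, j ≠ k → Disjoint (I j) (I k)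

/-- products of functions of single cells -/
lemma flatWeight_prod {d N n : ℕ} {M : ℝ} (B : Finset (Fin d → Fin N)) (lam : Fin n → ℝ)
    (φ : Fin n → (Fin d → Fin N) → Bool → ℝ) (hM : ∑ t, |lam t| ≤ M)
    (hφ : ∀ t c β, |φ t c β| ≤ 1) :
    FlatWeight M B fun A => ∑ t, lam t * ∏ c, φ t c (decide (c ∈ A)) := by
  classical
  have hprod : ∀ (t : Fin n) (X : Finset (Fin d → Fin N)) (Z : Finset (Fin d → Fin N)),
      |∏ c ∈ Z, φ t c (decide (c ∈ X))| ≤ 1 := by
    intro t X Z
    rw [abs_prod]
    exact prod_le_one (fun c _ => abs_nonneg _) fun c _ => hφ t c _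
  refine ⟨n, lam, fun t X => ∏ c ∈ B, φ t c (decide (c ∈ X)),
    fun t X => ∏ c ∈ Bᶜ, φ t c (decide (c ∈ X)), hM, fun t X => hprod t X B,
    fun t X => hprod t X Bᶜ, fun A => sum_congr rfl fun t _ => ?_⟩
  congr 1
  rw [← prod_mul_prod_compl B]
  congr 1
  · refine prod_congr rfl fun c hc => ?_
    simp [mem_inter, hc]
  · refine prod_congr rfl fun c hc => ?_
    rw [mem_compl] at hc
    simp [mem_sdiff, hc]

/-- Let `d ≥ 1`.

(1) For all `v` and `δ > 0` there are `l`, `b` and `η > 0` such that: if `I` are `b` disjoint sets of
`l` coordinates, `F` has at least `δ 2^(N^d)` elements, no `v` contents of one of the blocks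
`(I k)^d` are shattered by the contents of the other blocks for fixed contents of all other cells,
and `S` contains all but at most `η 2^(N^d)` elements of `F`, then `S` is good.

(2) For all `s` and `v` there is `v'` such that, if no `v` contents of `B` are shattered with respect
to each of `s` families, then no `v'` contents of `B` are shattered with respect to any Boolean
combination of these families.

(3) The conclusion of (1) holds, for some `l`, `b` and `η > 0` depending on `d`, `r`, `s` and `δ`, if
for each `k` the family `F` is given by the signs of `s` real functions, by means of any Boolean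
function, whose flattenings at the block `(I k)^d` have rank at most `r`.

(4) It holds, for `l`, `b` and `η > 0` depending on `d`, `M` and `δ`, if for each `k` there is a
function `g` with `g ≥ 1` on `F` and `g ≤ -1` off `F` which is a combination, with coefficients of
total size at most `M`, of products of functions of `A ∩ (I k)^d` and of `A \ (I k)^d` with values in
`[-1, 1]`; in particular it holds, for all large `N` and without blocks, for combinations
of arbitrarily many products of functions of single cells with values in `[-1, 1]`.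

(5) It holds for all large `N` if `F` consists of the `A` for which the sum over `A` of given elements
of an abelian group is in a set `W`, such that no `v` elements of the group are shattered by the
translates of `W`.

(6) It holds for all large `N`, depending on `d`, `w`, `p`, `s` and `δ`, if `F` is given by the signs
of `s` linear forms in the last vector of a program of real `w × w` matrices in which each cell is
read at most `p` times.

(7) For all `N` there is a family with at least `2^(N^d) / (N + 1)` elements which is not good and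
for which no two contents of any set of cells are shattered. -/
theorem result (d : ℕ) (hd : 1 ≤ d) :
    (∀ (v : ℕ) (δ : ℝ), 0 < δ → ∃ (l b : ℕ) (η : ℝ), 0 < l ∧ 0 < b ∧ 0 < η ∧
      ∀ (N : ℕ) (I : Fin b → Finset (Fin N)) (F S : Finset (Finset (Fin d → Fin N))), Blocks l I →
        (∀ k, ¬ Shattered F (cube d (I k)) (univ.biUnion fun j => cube d (I j)) v) →
        Dense δ η F S → Good S) ∧
    (∀ s v : ℕ, ∃ v' : ℕ, ∀ (N : ℕ) (R : (Fin s → Prop) → Prop)
      (G : Fin s → Finset (Finset (Fin d → Fin N))) (F : Finset (Finset (Fin d → Fin N)))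
      (B D : Finset (Fin d → Fin N)), (∀ A, A ∈ F ↔ R fun j => A ∈ G j) →
        (∀ j, ¬ Shattered (G j) B D v) → ¬ Shattered F B D v') ∧
    (∀ (r s : ℕ) (δ : ℝ), 0 < δ → ∃ (l b : ℕ) (η : ℝ), 0 < l ∧ 0 < b ∧ 0 < η ∧
      ∀ (N : ℕ) (I : Fin b → Finset (Fin N)) (F S : Finset (Finset (Fin d → Fin N))), Blocks l I →
        (∀ k, ∃ (R : (Fin s → Prop) → Prop) (f : Fin s → Finset (Fin d → Fin N) → ℝ),
          (∀ A, A ∈ F ↔ R fun j => 0 < f j A) ∧ ∀ j, FlatRank r (cube d (I k)) (f j)) →
        Dense δ η F S → Good S) ∧
    (∀ M δ : ℝ, 0 < δ → (∃ (l b : ℕ) (η : ℝ), 0 < l ∧ 0 < b ∧ 0 < η ∧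
      ∀ (N : ℕ) (I : Fin b → Finset (Fin N)) (F S : Finset (Finset (Fin d → Fin N))), Blocks l I →
        (∀ k, ∃ g : Finset (Fin d → Fin N) → ℝ, (∀ A, (A ∈ F → 1 ≤ g A) ∧ (A ∉ F → g A ≤ -1)) ∧
          FlatWeight M (cube d (I k)) g) → Dense δ η F S → Good S) ∧
      ∃ (N₀ : ℕ) (η : ℝ), 0 < η ∧ ∀ N : ℕ, N₀ ≤ N → ∀ (n : ℕ) (lam : Fin n → ℝ)
        (φ : Fin n → (Fin d → Fin N) → Bool → ℝ) (F S : Finset (Finset (Fin d → Fin N))),
        ∑ t, |lam t| ≤ M → (∀ t c β, |φ t c β| ≤ 1) →
        (∀ A, (A ∈ F → 1 ≤ ∑ t, lam t * ∏ c, φ t c (decide (c ∈ A))) ∧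
          (A ∉ F → ∑ t, lam t * ∏ c, φ t c (decide (c ∈ A)) ≤ -1)) →
        Dense δ η F S → Good S) ∧
    (∀ (v : ℕ) (δ : ℝ), 0 < δ → ∃ (N₀ : ℕ) (η : ℝ), 0 < η ∧ ∀ N : ℕ, N₀ ≤ N →
      ∀ (G : Type) [AddCommGroup G] (W : Set G) (g : (Fin d → Fin N) → G)
        (F S : Finset (Finset (Fin d → Fin N))),
        (∀ z : Fin v → G, ∃ T : Finset (Fin v), ∀ h : G, ¬ ∀ i, (z i + h ∈ W ↔ i ∈ T)) →
        (∀ A, A ∈ F ↔ ∑ c ∈ A, g c ∈ W) → Dense δ η F S → Good S) ∧
    (∀ (w p s : ℕ) (δ : ℝ), 1 ≤ w → 0 < δ → ∃ (N₀ : ℕ) (η : ℝ), 0 < η ∧ ∀ N : ℕ, N₀ ≤ N →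
      ∀ P : MatProgram ℝ w (Fin d → Fin N), P.ReadAtMost p →
        ∀ (acc : Fin s → Fin w → ℝ) (R : (Fin s → Prop) → Prop)
          (F S : Finset (Finset (Fin d → Fin N))),
          (∀ A, A ∈ F ↔ R fun j =>
            0 < ∑ q, P.state (fun c => decide (c ∈ A)) P.len q * acc j q) →
          Dense δ η F S → Good S) ∧
    (∀ N : ℕ, ∃ F : Finset (Finset (Fin d → Fin N)), ¬ Good F ∧
      (2 : ℝ) ^ (N ^ d) ≤ (N + 1) * #F ∧ ∀ B D : Finset (Fin d → Fin N), ¬ Shattered F B D 2) := by
  classical
  have main := J4.H83.PH.bounded_dimension d hd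
  refine ⟨?_, ?_, ?_, ?_, ?_, ?_, ?_⟩
  · intro v δ hδ
    obtain ⟨l, b, η, hl, hb, hη, h⟩ := main v δ hδ
    exact ⟨l, b, η, hl, hb, hη, fun N I F S hI hsh hF => h N I F S hI.1 hI.2 hsh hF.1 hF.2⟩
  · intro s v
    obtain ⟨v', hv'⟩ := J4.H83.PH.exists_v v s
    exact ⟨v', fun N R G F B D hF hG => J4.H83.PH.not_shattered_comb hv' R G hF B D hG⟩
  · intro r s δ hδ
    obtain ⟨v, hv⟩ := J4.H83.PH.exists_v r s
    obtain ⟨l, b, η, hl, hb, hη, h⟩ := main v δ hδ
    refine ⟨l, b, η, hl, hb, hη, fun N I F S hI hf hF => h N I F S hI.1 hI.2 (fun k => ?_) hF.1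
      hF.2⟩
    obtain ⟨R, f, h1, h2⟩ := hf k
    exact J4.H83.PH.not_shattered_signs hv R f h1 _ _ h2
  · intro M δ hδ
    obtain ⟨v, hv⟩ := exists_nat_gt (M ^ 2)
    obtain ⟨l, b, η, hl, hb, hη, h⟩ := main v δ hδ
    refine ⟨⟨l, b, η, hl, hb, hη, fun N I F S hI hg hF => h N I F S hI.1 hI.2 (fun k => ?_) hF.1
      hF.2⟩, b * l, η, hη, fun N hN n lam φ F S hM hφ hg hF => ?_⟩
    · obtain ⟨g, h1, h2⟩ := hg k
      exact J4.H83.PH.not_shattered_margin hv _ _ g h2 h1
    · obtain ⟨I, hI1, hI2⟩ := J4.H83.PH.exists_blocks hN
      refine h N I F S hI1 hI2 (fun k => ?_) hF.1 hF.2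
      exact J4.H83.PH.not_shattered_margin hv _ _ _ (flatWeight_prod _ lam φ hM hφ) hg
  · intro v δ hδ
    obtain ⟨l, b, η, hl, hb, hη, h⟩ := main v δ hδ
    refine ⟨b * l, η, hη, fun N hN G _ W g F S hW hF hFS => ?_⟩
    obtain ⟨I, hI1, hI2⟩ := J4.H83.PH.exists_blocks hN
    exact h N I F S hI1 hI2 (fun k => J4.H83.PH.not_shattered_group W hW g hF _ _) hFS.1 hFS.2
  · intro w p s δ hw hδ
    obtain ⟨N₀, η, hη, h⟩ := J4.H83.PH.programs d hd w p s hw δ hδ
    exact ⟨N₀, η, hη, fun N hN P hP acc R F S hF hFS => h N hN P hP acc R F S hF hFS.1 hFS.2⟩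
  · intro N
    obtain ⟨m, F, h1, h2, h3⟩ := J4.H83.PH.exists_layer d N hd
    refine ⟨F, h2, h3, fun B D => J4.H83.PH.not_shattered_group ({(m : ℤ)} : Set ℤ) ?_ _ h1 B D⟩
    intro z
    by_cases hz : z 0 = z 1
    · refine ⟨{0}, fun h hh => ?_⟩
      have e0 := hh 0
      have e1 := hh 1
      rw [hz] at e0
      simp only [mem_singleton] at e0 e1
      have := e1.1 (e0.2 trivial)
      exact absurd this (by decide)
    · refine ⟨univ, fun h hh => hz ?_⟩
      have e0 := (hh 0).2 (mem_univ _)
      have e1 := (hh 1).2 (mem_univ _)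
      rw [Set.mem_singleton_iff] at e0 e1
      linarith

end Pool.Agent.Results.MP_90b327_co.BoundedVCDimension
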