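import Mathlib
import Pool.Agent.J4.H42.IsoE
import Pool.Agent.Results.MP_90b327_co.Universality
import Pool.Agent.Results.MP_90b327_co.VectorThreshold

/-!
# It is enough to consider isomorphism invariant families

A set `A ⊆ [N]^d` is a relation with `d` places on `[N]`; for `d = 2` it is a directed graph (with loops). A family `S` of such
relations is invariant if it is closed under the permutations of `[N]`: in other words `S` is a property of relations which
depends only on their isomorphism type. We prove that `Q1` holds for the dimension `d` if and only if it holds, for all large `N`,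
for the invariant families of subsets of `[N]^d`: to prove the conjecture one may assume that `S` is a property of relations
(graphs) up to isomorphism.

Proof. Let there be bad families of density more than `δ` for every size. For `n` large and suitable `N` (about
`2 ^ (n^(d-1))`) consider the sequences `v` of `n` points of `[N]` on which `A` is the relation `c_1 ≤ c_2`. The expected number of
such sequences is a small constant, and by a second moment estimate there is, with probability bounded from below, exactly one
of them; the relation `c_1 ≤ c_2` has no automorphisms and contains the diagonal. With probability at least `1/4` the other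
points `x` are distinguished by the cells which contain `x` once, in the first or in the second place, and else points of `v`. So
all the other points have names which depend only on the isomorphism type of `A`, and one can ask that the structure induced on
the other points, written in terms of the names, belongs to a given bad family. As the diagonal cells of the points of `v` lie in
`A`, no set `γ` with `A ∩ γ^d = ∅` contains a point of `v`; hence the sequence and the names are the same for `A` and for
`A ∪ γ^d`, and the invariant family which arises is bad.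
-/

set_option autoImplicit false

namespace Pool.Agent.Results.MP_90b327_co.IsomorphismInvariantFamilies

open Finset

/-- `cube d γ` is `γ^d`, the set of all `d`-tuples with entries in `γ`. -/
def cube {N : ℕ} (d : ℕ) (γ : Finset (Fin N)) : Finset (Fin d → Fin N) :=
  Fintype.piFinset (fun _ : Fin d => γ)

/-- A family `S` of subsets of `[N]^d` is good if there are `A ∈ S` and a nonempty `γ ⊆ [N]` with
`A ∩ γ^d = ∅` and `A ∪ γ^d ∈ S`. -/
def Good {N d : ℕ} (S : Finset (Finset (Fin d → Fin N))) : Prop :=
  ∃ A ∈ S, ∃ γ : Finset (Fin N), γ.Nonempty ∧ Disjoint A (cube d γ) ∧ A ∪ cube d γ ∈ S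

/-- `S` is closed under all permutations `π` of `[N]`: with `A` the family `S` contains
`π A = {(π x_1, ..., π x_d) : (x_1, ..., x_d) ∈ A}`. -/
def Invariant {N d : ℕ} (S : Finset (Finset (Fin d → Fin N))) : Prop :=
  ∀ (π : Equiv.Perm (Fin N)) (A : Finset (Fin d → Fin N)), A ∈ S → A.image (fun x i => π (x i)) ∈ S

/-- The conjecture for the dimension `d`: for every density one `N` for which all families of that
density are good. -/
def Conj (d : ℕ) : Prop :=
  ∀ δ : ℝ, 0 < δ → δ < 1 → ∃ N : ℕ, ∀ S : Finset (Finset (Fin d → Fin N)),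
    δ * (2 : ℝ) ^ (N ^ d) < S.card → Good S

/-- The conjecture for the dimension `d` and invariant families: for every density all invariant
families of that density are good, for all large `N`. -/
def InvariantConj (d : ℕ) : Prop :=
  ∀ δ : ℝ, 0 < δ → δ < 1 → ∃ N₀ : ℕ, ∀ N : ℕ, N₀ ≤ N → ∀ S : Finset (Finset (Fin d → Fin N)),
    Invariant S → δ * (2 : ℝ) ^ (N ^ d) < S.card → Good S

lemma card_le {N d : ℕ} (S : Finset (Finset (Fin d → Fin N))) : (#S : ℝ) ≤ 2 ^ (N ^ d) := by
  have h : #S ≤ 2 ^ (N ^ d) := by
    simpa using card_le_univ S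
  exact_mod_cast h

lemma conj_iff (d : ℕ) : Conj d ↔ Universality.OneSize d 0 := by
  constructor
  · intro h δ hδ
    by_cases h1 : δ < 1
    · exact h δ hδ h1
    · refine ⟨0, fun S hS => absurd hS (not_lt.2 ?_)⟩
      refine (card_le S).trans ?_
      have : (0 : ℝ) < 2 ^ (0 ^ d) := by positivity
      nlinarith
  · intro h δ hδ _
    exact h δ hδ

theorem invariant_of_bad (e : ℕ) {δ : ℝ} (hδ : 0 < δ)
    (hbad : ∀ N : ℕ, ∃ S : Finset (Finset (Fin (e + 2) → Fin N)),
      δ * (2 : ℝ) ^ (N ^ (e + 2)) < S.card ∧ ¬ Good S) (N₀ : ℕ) :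
    ∃ N : ℕ, N₀ ≤ N ∧ ∃ S : Finset (Finset (Fin (e + 2) → Fin N)), Invariant S ∧ ¬ Good S ∧
      δ ^ 2 / 512 * (2 : ℝ) ^ (N ^ (e + 2)) ≤ S.card := by
  have hδ1 : δ ≤ 1 := by
    obtain ⟨S, hS, -⟩ := hbad 0
    have h1 := card_le S
    have h2 : (0 : ℝ) < 2 ^ (0 ^ (e + 2)) := by positivity
    by_contra hcon
    push Not at hcon
    nlinarith
  exact Pool.Agent.J4.H42.Iso.inv_of_bad e hδ hδ1 hbad N₀

/-- **Theorem.** (1) The conjecture holds for the dimension `d` if and only if it holds for the
dimension `d` for all invariant families: those closed under the permutations of `[N]`.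
(2) Let `d ≥ 2` and `δ > 0`. If for every `N` there is a family of more than `δ 2^(N^d)` subsets of
`[N]^d` which is not good, then for arbitrarily large `N` there is an invariant family of at least
`(δ^2 / 512) 2^(N^d)` subsets of `[N]^d` which is not good.
(3) So `Q1` is equivalent to `Q1` for invariant families (and all large `N`). -/
theorem result :
    (∀ d : ℕ, 1 ≤ d → (Conj d ↔ InvariantConj d)) ∧
    (∀ d : ℕ, 2 ≤ d → ∀ δ : ℝ, 0 < δ →
      (∀ N : ℕ, ∃ S : Finset (Finset (Fin d → Fin N)), δ * (2 : ℝ) ^ (N ^ d) < S.card ∧ ¬ Good S) →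
      ∀ N₀ : ℕ, ∃ N : ℕ, N₀ ≤ N ∧ ∃ S : Finset (Finset (Fin d → Fin N)), Invariant S ∧ ¬ Good S ∧
        δ ^ 2 / 512 * (2 : ℝ) ^ (N ^ d) ≤ S.card) ∧
    ((∀ d : ℕ, 1 ≤ d → Conj d) ↔ ∀ d : ℕ, 1 ≤ d → InvariantConj d) := by
  have h1 : ∀ d : ℕ, 2 ≤ d → ∀ δ : ℝ, 0 < δ →
      (∀ N : ℕ, ∃ S : Finset (Finset (Fin d → Fin N)), δ * (2 : ℝ) ^ (N ^ d) < S.card ∧ ¬ Good S) →
      ∀ N₀ : ℕ, ∃ N : ℕ, N₀ ≤ N ∧ ∃ S : Finset (Finset (Fin d → Fin N)), Invariant S ∧ ¬ Good S ∧
        δ ^ 2 / 512 * (2 : ℝ) ^ (N ^ d) ≤ S.card := by
    intro d hd δ hδ hbad N₀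
    obtain ⟨e, rfl⟩ : ∃ e, d = e + 2 := ⟨d - 2, by omega⟩
    exact invariant_of_bad e hδ hbad N₀
  have h2 : ∀ d : ℕ, 1 ≤ d → (Conj d ↔ InvariantConj d) := by
    intro d hd
    have hU : Universality.OneSize d 0 ↔ Universality.Uniform d 0 :=
      ((Universality.result d hd).1 0).out 0 1
    constructor
    · intro h δ hδ _
      obtain ⟨N₀, hN₀⟩ := hU.1 ((conj_iff d).1 h) δ hδ
      exact ⟨N₀, fun N hN S _ hS => hN₀ N hN S hS⟩
    · intro h
      by_cases hd1 : d = 1
      · subst hd1
        rw [conj_iff, hU]
        intro δ hδ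
        refine VectorThreshold.result 1 le_rfl δ ?_
        unfold VectorThreshold.threshold
        norm_num
        exact hδ
      · by_contra hcon
        unfold Conj at hcon
        push Not at hcon
        obtain ⟨δ, hδ, hδ1, hbad⟩ := hcon
        obtain ⟨N₀, hN₀⟩ := h (δ ^ 2 / 1024) (by positivity) (by nlinarith)
        obtain ⟨N, hN, S, hS1, hS2, hS3⟩ := h1 d (by omega) δ hδ hbad N₀
        refine hS2 (hN₀ N hN S hS1 (lt_of_lt_of_le ?_ hS3))
        have : (0 : ℝ) < 2 ^ (N ^ d) := by positivity
        have h3 : 0 < δ ^ 2 := by positivity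
        nlinarith
  exact ⟨h2, h1, ⟨fun h d hd => (h2 d hd).1 (h d hd), fun h d hd => (h2 d hd).2 (h d hd)⟩⟩

end Pool.Agent.Results.MP_90b327_co.IsomorphismInvariantFamilies
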