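import Pool.Agent.J4.H79.HS.U7
import Pool.Agent.J4.H79.HS.V6
import Pool.Agent.J4.H79.HS.V8

/-!
# The restricted density polynomial Hales-Jewett conjecture and the numbers of points on lines

For a set `A ⊆ [N]^d` consider the numbers of points of `A` on all the lines parallel to the axes
(for `d = 2`: the row sums and the column sums). We prove the conjecture, for every `d` and every
density, for all families which depend only on these numbers and on an additive function
`A ↦ ∑_{c ∈ A} g c` with values in a finite abelian group, in an arbitrary way. More precisely:

**(1) Majority theorem.** For all `d`, all finite abelian groups `G` and all `ε, δ > 0` there is `n₀` such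
that the following holds for all `N`, all sets `I ⊆ [N]` of `n₀` coordinates and all `g : [N]^d → G`. Let
the class of `A` consist of the sets `B` which agree with `A` outside `I^d`, have the same number of
points as `A` on every line, and the same sum of `g`. If at least `δ 2^(N^d)` sets `A` are such that
the family `S` contains at least the proportion `1/2 + ε` of the class of `A`, then `S` is good.

So a family which is not good contains at most about one half of almost all of these classes. For
unions of classes, and for all families which nearly contain a dense union of classes, Q1 holds. The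
families which depend only on the line counts and on the sum of `g` are unions of classes (for every
`I`), but unions of classes may be arbitrary outside of the bounded cube `I^d`: for example (1) contains
Q1 for all families which depend, in an arbitrary way, on the line counts, on the sum of `g` and on a
function `f(A)` with values in any set, if `f` does not change inside of `I^d` for most `A` (small
influences, circuits of bounded depth). For density larger than `1/2` the conjecture is trivial; here
only the proportion in a positive part of the classes has to be larger than `1/2`.

**(2) Khintchine type bound.** Let `freq s S` be the probability that `A` and `A ∪ γ^d` both belong to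
`S`, for a random `γ ⊆ [N]` with `s` elements and a random `A` disjoint from `γ^d`. If `S` depends only on
the line counts and has density `D`, then `freq s S ≥ D² - ε` for some bounded `s`, as for random
families. For general families this is false for all `d ≥ 2` (starting file `CountAtOneHalf`: for
`D = 1/2` the optimal bound is `2^(-d-1)`).

**(3) The recurrence behind (1) and (2), in abelian groups of unbounded rank.** (The case `k = d - 1` is
the form of Q1 for the families `{A : ∑_{c ∈ A} w c ∈ F}`, if `w c` is a sum of functions of `d - 1`
coordinates of `c`.) For all `k` and `ε > 0` there are `n₀` and `R` such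
that for all `n ≥ n₀`, all finite abelian groups `H`, all `h : [n]^k → H` and `F ⊆ H` there is `s ≤ R` such
that `x ∈ F` and `x + |γ| ∑_{c ∈ γ^k} h c ∈ F` for at least the proportion `(|F|/|H|)² - ε` of all pairs
`(γ, x)`, `|γ| = s`. The theorem of Bergelson, Furstenberg and McCutcheon has such a bound for
polynomial expressions in finitely many commuting transformations; here the rank is not bounded
(the `h c` are arbitrary). For groups of bounded exponent the statement is trivial; the difficulty is that
the rank and the exponent are both unbounded. The factor `|γ|` is essential: for
`x + ∑_{c ∈ γ^k} h c` the bound is false for all `k ≥ 2` (by the families of `CountAtOneHalf`, with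
`H = ℤ/2`, `F = {0}`).

Proof. (3) By Fourier analysis we need a probability measure on the sets `γ` with
`E cos(2π |γ| ∑_{c ∈ γ^k} θ c) ≥ -ε` for all `θ : [n]^k → ℝ` simultaneously. We take random sets of `q s`
elements, `s ≤ S`, on many scales `(q, S)`; the larger scales have less divisible `q`. Consider the
largest scale on which the average is not small. The Gowers-Cauchy-Schwarz inequality and an inverse
theorem of Littlewood-Offord type (in the circle, for functions of pairs of points, proved by one
application of the inequality of Jensen), and the inverse theorem for Weyl sums, give that the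
`k`-fold difference of `θ` is near to a torsion element at almost all places, hence can be removed on
all smaller scales. By a decomposition of symmetric functions whose `k`-fold difference vanishes,
the phase on the smaller scales is a phase of lower order, with coefficients which are polynomials in
`|γ|` without constant term. Induction.
(2) The law of the line counts of a random set is almost invariant under the translation by the line
counts of one cell: switch between the two colour classes of the vertices of a box which contains
the cell. We have `T(γ^d) = |γ| ∑_{c ∈ γ^(d-1)} z(c)` for the vector `T` of the line counts, by inclusion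
and exclusion with a point at infinity. Now use (3) for boxes in the group generated by the `z(c)`.
(1) For `G = 0` use (2) for the family of the sets with the majority property in many disjoint blocks
of coordinates. For one of these blocks the event that `A` avoids (or contains) `γ^d` is nearly
independent of `S` (second moment). In general there are blocks of equal size such that the sum of
`g` over every product of blocks is zero (the return lemma for polynomials of the starting file
`PolynomialFamilies`), and among many such systems of blocks there is one for which the sets with the
majority property, and the sets of `S` among them, have the right density on some subcube of block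
structured sets (second moment). On this subcube the classes are unions of classes of the case `G = 0`.
Parts of the formal proof are by helpers 7, 11, 18, 20, 30, 43, 45, 46, 59, 68, 69, 72, 91 and 97 of the
team.
-/

set_option autoImplicit false

namespace Pool.Agent.Results.MP_90b327_co.LineCountClasses

open Finset

/-- `cube d γ` is `γ^d`, the set of all `d`-tuples with entries in `γ`. -/
def cube {N : ℕ} (d : ℕ) (γ : Finset (Fin N)) : Finset (Fin d → Fin N) :=
  Fintype.piFinset (fun _ : Fin d => γ)

/-- `S` is good: there are `A ∈ S` and a non-empty `γ` with `A ∩ γ^d = ∅` and `A ∪ γ^d ∈ S`. -/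
def Good {d N : ℕ} (S : Finset (Finset (Fin d → Fin N))) : Prop :=
  ∃ A ∈ S, ∃ γ : Finset (Fin N), γ.Nonempty ∧ Disjoint A (cube d γ) ∧ A ∪ cube d γ ∈ S

/-- The number of points of `A` on the line through `u` in direction `j`. -/
def lineCount {d N : ℕ} (A : Finset (Fin d → Fin N)) (j : Fin d) (u : Fin d → Fin N) : ℕ :=
  (A.filter fun c => ∀ l, l ≠ j → c l = u l).card

/-- `A` and `B` agree outside `I^d`, have the same number of points on every line, and the same sum
of the values of `g`. -/
def SameClass {d N : ℕ} {G : Type} [AddCommGroup G] (I : Finset (Fin N))
    (g : (Fin d → Fin N) → G) (A B : Finset (Fin d → Fin N)) : Prop :=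
  A \ cube d I = B \ cube d I ∧ (∀ j u, lineCount A j u = lineCount B j u) ∧
    ∑ c ∈ A, g c = ∑ c ∈ B, g c

open Classical in
/-- `S` contains at least the proportion `p` of the sets `B` in the class of `A`. -/
def Majority {d N : ℕ} {G : Type} [AddCommGroup G] (p : ℝ) (I : Finset (Fin N))
    (g : (Fin d → Fin N) → G) (S : Finset (Finset (Fin d → Fin N)))
    (A : Finset (Fin d → Fin N)) : Prop :=
  p * ((univ.filter fun B => SameClass I g A B).card : ℝ) ≤
    ((S.filter fun B => SameClass I g A B).card : ℝ)

open Classical in
/-- The proportion of the pairs `(γ, A)` with `|γ| = s` and `A ∩ γ^d = ∅` for which both `A` and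
`A ∪ γ^d` belong to the family `S`. -/
noncomputable def freq {N d : ℕ} (s : ℕ) (S : Finset (Finset (Fin d → Fin N))) : ℝ :=
  ((univ.filter fun p : Finset (Fin N) × Finset (Fin d → Fin N) =>
      p.1.card = s ∧ Disjoint p.2 (cube d p.1) ∧ p.2 ∈ S ∧ p.2 ∪ cube d p.1 ∈ S).card : ℝ) /
    ((univ.filter fun p : Finset (Fin N) × Finset (Fin d → Fin N) =>
      p.1.card = s ∧ Disjoint p.2 (cube d p.1)).card : ℝ)

open Classical in
/-- Let `d ≥ 1`.

(1) For every finite abelian group `G` and all `ε, δ > 0` there is `n₀` such that for all `N`, all
`I ⊆ [N]` with `n₀` elements, all `g : [N]^d → G` and all families `S` of subsets of `[N]^d`: if at least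
`δ 2^(N^d)` sets `A` are such that `S` contains at least the proportion `1/2 + ε` of the sets which
agree with `A` outside `I^d` and have the same line counts and the same sum of `g` as `A`, then `S` is
good.

(2) For every `ε > 0` there are `M` and `N₀` such that for all `N ≥ N₀` and all families `S` which depend
only on the line counts there is `1 ≤ s ≤ M` with `freq s S ≥ D² - ε`, where `D` is the density of `S`.

(3) For all `k` and `ε > 0` there are `n₀` and `R` such that for all `n ≥ n₀`, every finite abelian
group `H`, every `h : [n]^k → H` and every `F ⊆ H` there is `1 ≤ s ≤ R` such that at least the proportion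
`(|F|/|H|)² - ε` of the pairs `(γ, x)`, `γ ⊆ [n]`, `|γ| = s`, `x ∈ H`, have `x ∈ F` and
`x + |γ| ∑_{c ∈ γ^k} h c ∈ F`. -/
theorem result (d : ℕ) (hd : 1 ≤ d) :
    (∀ (G : Type) [AddCommGroup G] [Fintype G] (ε δ : ℝ), 0 < ε → 0 < δ → ∃ n₀ : ℕ,
      ∀ (N : ℕ) (I : Finset (Fin N)), I.card = n₀ →
      ∀ (g : (Fin d → Fin N) → G) (S : Finset (Finset (Fin d → Fin N))),
        δ * 2 ^ (N ^ d) ≤ ((univ.filter fun A => Majority (1 / 2 + ε) I g S A).card : ℝ) →
          Good S) ∧
    (∀ ε : ℝ, 0 < ε → ∃ M N₀ : ℕ, ∀ N : ℕ, N₀ ≤ N → ∀ S : Finset (Finset (Fin d → Fin N)),
      (∀ A B : Finset (Fin d → Fin N), (∀ j u, lineCount A j u = lineCount B j u) →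
        (A ∈ S ↔ B ∈ S)) →
      ∃ s, 1 ≤ s ∧ s ≤ M ∧ ((S.card : ℝ) / 2 ^ (N ^ d)) ^ 2 - ε ≤ freq s S) ∧
    (∀ (k : ℕ) (ε : ℝ), 0 < ε → ∃ n₀ R : ℕ, ∀ n : ℕ, n₀ ≤ n →
      ∀ (H : Type) [AddCommGroup H] [Fintype H] (h : (Fin k → Fin n) → H) (F : Finset H),
      ∃ s, 1 ≤ s ∧ s ≤ R ∧
        (((F.card : ℝ) / Fintype.card H) ^ 2 - ε) * (n.choose s * Fintype.card H) ≤
          ((univ.filter fun p : Finset (Fin n) × H => p.1.card = s ∧ p.2 ∈ F ∧
            p.2 + p.1.card • ∑ c ∈ cube k p.1, h c ∈ F).card : ℝ)) :=
  ⟨fun G _ _ ε δ hε hδ => Pool.Agent.J4.H79.HS.majority_additive d hd G ε δ hε hδ,
    fun ε hε => Pool.Agent.J4.H79.HS.line_families_avg d hd ε hε,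
    fun k ε hε => Pool.Agent.J4.H79.HS.group_recurrence_avg k ε hε⟩

end Pool.Agent.Results.MP_90b327_co.LineCountClasses
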