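import Mathlib
import Pool.Agent.J4.H81.SR.Small

set_option autoImplicit false

/-!
# The restricted density polynomial Hales-Jewett statement above density `1/2 - c 2^(-d/2)`

Plant `n + 1` disjoint cubes `B_i^d` in a random set, all subsets of them. For a family which is not
good the indicator of the family is an independent set of the discrete cube of dimension `n + 1`.
An independent set of that cube with densities `a`, `b` in the two colour classes satisfies
`a + b + w a (1 - a) ≤ 1` with `w = √(6 / (n + 6))` (vertex isoperimetry). The difference `a - b`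
is small in mean square: adding one more cube of a well chosen size multiplies its mean square by at
most `1 - 2^(-d)` (the Hilbert space argument of the starting files, carried out here for an
abstract pattern kernel). With `n = 3 * 2^(d-1)` the density is at most
`8 / (16 + 3 / √(2^d/4 + 1))`, which is `1/2 - (3/16 + o(1)) 2^(-d/2)`; with `n = 3` and the exact
isoperimetry of the four-dimensional cube it is at most `31 / (110 - 48 (1 - 2^(-d))^3)`.
-/

namespace Pool.Agent.Results.MP_90b327_co.SquareRootThreshold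

open Finset Filter Topology Pool.Agent.TH7.DH Pool.Agent.R814.PHJ Pool.Agent.J4.H81.SR

/-- `cube d γ` is `γ^d`, the set of all `d`-tuples with entries in `γ`. -/
def cube {N : ℕ} (d : ℕ) (γ : Finset (Fin N)) : Finset (Fin d → Fin N) :=
  Fintype.piFinset (fun _ : Fin d => γ)

/-- A family `S` of subsets of `[N]^d` is good if there are `A ∈ S` and a nonempty `γ ⊆ [N]` with
`A ∩ γ^d = ∅` and `A ∪ γ^d ∈ S`. -/
def Good {N d : ℕ} (S : Finset (Finset (Fin d → Fin N))) : Prop :=
  ∃ A ∈ S, ∃ γ : Finset (Fin N), γ.Nonempty ∧ Disjoint A (cube d γ) ∧ A ∪ cube d γ ∈ S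

lemma not_good_ow {N d : ℕ} {S : Finset (Finset (Fin d → Fin N))} (hS : ¬ Good S) {ι : Type}
    [Fintype ι] (φ : ι ↪ Fin N) (A : Finset (Fin d → Fin N)) (P : (Fin d → ι) → Prop)
    (γ : Finset ι) (hγ : γ.Nonempty) (hP : ∀ c : Fin d → ι, (∀ t, c t ∈ γ) → ¬ P c) :
    ¬ (ow φ P A ∈ S ∧ ow φ (fun c => P c ∨ ∀ t, c t ∈ γ) A ∈ S) := by
  classical
  rintro ⟨h0, h1⟩
  refine hS ⟨_, h0, γ.map φ, hγ.map, ?_, ?_⟩
  · rw [Finset.disjoint_left]
    intro c hc hc'
    rw [mem_ow] at hc
    rw [cube, Fintype.mem_piFinset] at hc'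
    have : ∀ t, ∃ x, x ∈ γ ∧ φ x = c t := fun t => by
      have := hc' t
      rw [Finset.mem_map] at this
      exact this
    choose e he he' using this
    rcases hc with ⟨e₁, he₁, hP₁⟩ | ⟨hne, -⟩
    · have h2 : e₁ = e := funext fun t => φ.injective ((congrFun he₁ t).trans (he' t).symm)
      rw [h2] at hP₁
      exact hP e he hP₁
    · exact hne ⟨e, funext he'⟩
  · have h2 : ow φ P A ∪ cube d (γ.map φ) = ow φ (fun c => P c ∨ ∀ t, c t ∈ γ) A := by
      ext c
      have h3 : c ∈ cube d (γ.map φ) ↔ ∃ e : Fin d → ι, (fun t => φ (e t)) = c ∧ ∀ t, e t ∈ γ := by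
        rw [cube, Fintype.mem_piFinset]
        constructor
        · intro hc
          have : ∀ t, ∃ x, x ∈ γ ∧ φ x = c t := fun t => by
            have := hc t
            rw [Finset.mem_map] at this
            exact this
          choose e he he' using this
          exact ⟨e, funext he', he⟩
        · rintro ⟨e, rfl, he⟩ t
          exact mem_map_of_mem _ (he t)
      rw [mem_union, mem_ow, mem_ow, h3]
      by_cases hc : ∃ e : Fin d → ι, (fun t => φ (e t)) = c
      · simp only [hc, not_true, false_and, or_false]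
        constructor
        · rintro (⟨e, he, h⟩ | ⟨e, he, h⟩)
          · exact ⟨e, he, Or.inl h⟩
          · exact ⟨e, he, Or.inr h⟩
        · rintro ⟨e, he, h | h⟩
          · exact Or.inl ⟨e, he, h⟩
          · exact Or.inr ⟨e, he, h⟩
      · have h4 : ∀ R : (Fin d → ι) → Prop, ¬ ∃ e : Fin d → ι, (fun t => φ (e t)) = c ∧ R e :=
          fun R ⟨e, he, _⟩ => hc ⟨e, he⟩
        simp only [hc, h4 P, h4 (fun c => P c ∨ ∀ t, c t ∈ γ), h4 (fun e => ∀ t, e t ∈ γ),
          not_false_iff, true_and, false_or, or_false]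
    rw [h2]
    exact h1

/-- For every `d ≥ 1` the restricted density polynomial Hales-Jewett statement holds for all
densities above the minimum of `8 / (16 + 3 / √(2^d/4 + 1))` and
`31 / (110 - 48 (1 - 2^(-d))^3)`. The first number is `1/2 - (3/16 + o(1)) 2^(-d/2)`. For
`d = 3, 4, 5, 6` the minimum is less than `0.3983`, `0.4401`, `0.4672`, `0.4783`. (The starting
files have `2^(d-2)/(2^(d-1)+1) = 1/2 - (1 + o(1)) 2^(-d)`, that is `0.4`, `0.4444`, `0.4705`,
`0.4848`.) -/
theorem result : ∀ d : ℕ, 1 ≤ d → ∀ δ : ℝ,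
    min (8 / (16 + 3 / Real.sqrt (2 ^ d / 4 + 1))) (31 / (110 - 48 * (1 - (1 / 2) ^ d) ^ 3)) < δ →
    ∃ N₀ : ℕ, ∀ N : ℕ, N₀ ≤ N → ∀ S : Finset (Finset (Fin d → Fin N)),
      δ * (2 : ℝ) ^ (N ^ d) < S.card → Good S := by
  classical
  intro d hd δ hδ
  by_contra hcon
  push Not at hcon
  -- the bad families
  set B : Set ℕ := {N | ∃ S : Finset (Finset (Fin d → Fin N)),
    δ * (2 : ℝ) ^ (N ^ d) < S.card ∧ ¬ Good S} with hB
  have hfreq : ∃ᶠ N in (atTop : Filter ℕ), N ∈ B := by
    rw [frequently_atTop]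
    intro N₀
    obtain ⟨N, hN, S, hS, hg⟩ := hcon N₀
    exact ⟨N, hN, S, hS, hg⟩
  have hne : NeBot ((atTop : Filter ℕ) ⊓ 𝓟 B) := frequently_mem_iff_neBot.1 hfreq
  set V : Ultrafilter ℕ := Ultrafilter.of ((atTop : Filter ℕ) ⊓ 𝓟 B) with hVdef
  have hVle : (V : Filter ℕ) ≤ (atTop : Filter ℕ) ⊓ 𝓟 B := Ultrafilter.of_le _
  have hV1 : (V : Filter ℕ) ≤ atTop := hVle.trans inf_le_left
  have hV2 : B ∈ (V : Filter ℕ) := hVle (mem_inf_of_right (mem_principal_self B))
  -- choose the families
  have hch : ∀ N : ℕ, ∃ S : Finset (Finset (Fin d → Fin N)), ¬ Good S ∧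
      (N ∈ B → δ * (2 : ℝ) ^ (N ^ d) < S.card) := by
    intro N
    by_cases hN : N ∈ B
    · obtain ⟨S, hS, hg⟩ := hN
      exact ⟨S, hg, fun _ => hS⟩
    · refine ⟨∅, ?_, fun h => (hN h).elim⟩
      rintro ⟨A, hA, -⟩
      exact absurd hA (notMem_empty _)
  choose S hSg hSd using hch
  have hadm : Adm S := fun N ι _ φ A P γ hγ hP => not_good_ow (hSg N) φ A P γ hγ hP
  have hb := density_le (V := V) (hV := hV1) (S := S) hd hadm
  have hb4 := density_le_four (V := V) (hV := hV1) (S := S) hd hadm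
  -- the density
  have hDδ : δ ≤ (raw V hV1 S).v := by
    refine ge_of_tendsto ((raw V hV1 S).tendsto Empty (fun _ => True) (fun _ => True)) ?_
    filter_upwards [hV2] with N hN
    have h1 : KN N ((raw V hV1 S).h₁ N) ((raw V hV1 S).h₂ N) Empty (fun _ => True)
        (fun _ => True) = av (fun A => ind (S N) A) := by
      unfold KN
      have h2 : ∀ φ : Empty ↪ Fin N, av (fun A => (raw V hV1 S).h₁ N (ow φ (fun _ => True) A)
          * (raw V hV1 S).h₂ N (ow φ (fun _ => True) A)) = av (fun A => ind (S N) A) := by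
        intro φ
        congr 1
        funext A
        rw [ow_empty hd]
        exact ind_mul_self (S N) A
      simp only [h2]
      have : Nonempty (Empty ↪ Fin N) := ⟨⟨Empty.elim, fun x => x.elim⟩⟩
      rw [av_const]
    rw [h1, av_ind]
    have h3 : ((Fintype.card (Finset (Fin d → Fin N)) : ℕ) : ℝ) = 2 ^ (N ^ d) := by
      rw [Fintype.card_finset]
      simp
    rw [h3, le_div_iff₀ (by positivity)]
    exact (hSd N hN).le
  -- arithmetic
  rcases min_lt_iff.1 hδ with hδ | hδ
  · rw [div_lt_iff₀ (by positivity)] at hδ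
    have hpos : (0 : ℝ) < 16 + 3 / Real.sqrt (2 ^ d / 4 + 1) := by positivity
    have h1 := mul_le_mul_of_nonneg_right hDδ hpos.le
    linarith
  · have hρ : (1 - ((1 : ℝ) / 2) ^ d) ^ 3 ≤ 1 := by
      have h0 : (0 : ℝ) ≤ 1 - (1 / 2) ^ d := by
        have : ((1 : ℝ) / 2) ^ d ≤ 1 := pow_le_one₀ (by norm_num) (by norm_num)
        linarith
      refine pow_le_one₀ h0 ?_
      have : (0 : ℝ) ≤ (1 / 2) ^ d := by positivity
      linarith
    have hpos : (0 : ℝ) < 110 - 48 * (1 - (1 / 2) ^ d) ^ 3 := by linarith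
    rw [div_lt_iff₀ hpos] at hδ
    have h1 := mul_le_mul_of_nonneg_right hDδ hpos.le
    linarith

end Pool.Agent.Results.MP_90b327_co.SquareRootThreshold
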